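import Pool.Agent.H.MP_ad013a_pr.h63r.Q12.C0

namespace Pool.Agent.ad013a.R12

theorem leaf_ok (i : Nat) : PrL chk (leaf i) := p0

theorem all_ok (i : Nat) : chkF false 10000 131072 54272 7700 10000 g (g i) = true := leaf_ok i i

theorem start_ok : fhx (g 0) = 0 ∧ flx (g 0) = 0 ∧ fnx (g 0) = 0 ∧
    fhy (g 0) = 0 ∧ fly (g 0) = 0 ∧ fny (g 0) = 0 := by decide +kernel

end Pool.Agent.ad013a.R12
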